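import Pool.Agent.Y489.SP.Stm

/-!
Project SP (helper489), job SP-FACE, part 2: parametrization of the faces of a cube and Fubini.
-/

set_option autoImplicit false

open MeasureTheory Set Metric Filter Topology
open scoped ENNReal NNReal

noncomputable section

namespace Pool.Agent.Y566.SP

open Pool.Agent.Y485.HS

/-- the hyperplane `x i = c` -/
def P {m : ℕ} (i : Fin (m + 1)) (c : ℝ) (v : Fin m → ℝ) : E (m + 1) :=
  WithLp.toLp 2 (Fin.insertNth (α := fun _ => ℝ) i c v)

theorem P_same {m : ℕ} (i : Fin (m + 1)) (c : ℝ) (v : Fin m → ℝ) : P i c v i = c :=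
  Fin.insertNth_apply_same (α := fun _ => ℝ) i c v

theorem P_succ {m : ℕ} (i : Fin (m + 1)) (c : ℝ) (v : Fin m → ℝ) (j : Fin m) :
    P i c v (i.succAbove j) = v j :=
  Fin.insertNth_apply_succAbove (α := fun _ => ℝ) i c v j

theorem P_eta {m : ℕ} (i : Fin (m + 1)) (x : E (m + 1)) :
    P i (x i) (fun j => x (i.succAbove j)) = x := by
  ext k
  rcases Fin.eq_self_or_eq_succAbove i k with h | ⟨j, h⟩
  · rw [h, P_same]
  · rw [h, P_succ]

theorem lint_P {m : ℕ} (i : Fin (m + 1)) (G : E (m + 1) → ℝ≥0∞) (hG : Measurable G) :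
    ∫⁻ c : ℝ, ∫⁻ v : Fin m → ℝ, G (P i c v) = ∫⁻ z, G z := by
  have h1 := PiLp.volume_preserving_toLp (Fin (m + 1))
  have h2 := (volume_preserving_piFinSuccAbove (fun _ : Fin (m + 1) => ℝ) i).symm
  have h3 : MeasurePreserving (fun q : ℝ × (Fin m → ℝ) => P i q.1 q.2)
      (volume : Measure (ℝ × (Fin m → ℝ))) volume := h1.comp h2
  rw [← h3.lintegral_comp hG, Measure.volume_eq_prod, lintegral_prod]
  exact (hG.comp h3.measurable).aemeasurable

theorem meas_P {m : ℕ} (i : Fin (m + 1)) (c : ℝ) : Continuous (P i c) := by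
  unfold P
  apply (PiLp.continuous_toLp 2 (fun _ : Fin (m + 1) => ℝ)).comp
  refine continuous_pi fun k => ?_
  rcases Fin.eq_self_or_eq_succAbove i k with h | ⟨j, h⟩
  · subst h
    simp only [Fin.insertNth_apply_same]
    exact continuous_const
  · subst h
    simp only [Fin.insertNth_apply_succAbove]
    exact continuous_apply j

theorem lint_face {m : ℕ} (i : Fin (m + 1)) (G : E (m + 1) → ℝ≥0∞) (hG : Measurable G) (b s : ℝ)
    (hs : |s| = 1) : ∫⁻ t : ℝ, ∫⁻ v : Fin m → ℝ, G (P i (b + s * t) v) = ∫⁻ z, G z := by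
  rw [← lint_P i G hG]
  rcases (abs_eq (zero_le_one' ℝ)).1 hs with h | h
  · subst h
    simp only [one_mul]
    exact lintegral_add_left_eq_self (fun c => ∫⁻ v : Fin m → ℝ, G (P i c v)) b
  · subst h
    have : ∀ t : ℝ, b + -1 * t = b - t := fun t => by ring
    simp only [this]
    exact lintegral_sub_left_eq_self (fun c => ∫⁻ v : Fin m → ℝ, G (P i c v)) b

end Pool.Agent.Y566.SP
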