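import Pool.Agent.Y566.SP.Far
import Pool.Agent.Y566.SP.Fub

/-!
Project SP (helper489), job SP-FACE: oscillation of homeomorphisms on balls.
-/

set_option autoImplicit false

open MeasureTheory Set Metric Filter Topology
open scoped ENNReal NNReal

noncomputable section

namespace Pool.Agent.Y566.SP

open Pool.Agent.Y485.HS Pool.Agent.Y489.SP

theorem edist_P {m : ℕ} (i : Fin (m + 1)) (c : ℝ) (v w : Fin m → ℝ) :
    edist (P i c v) (P i c w) ≤ ((m + 1 : ℕ) : ℝ≥0∞) * edist v w := by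
  have h1 : P i c v ∈ Q (P i c w) (dist v w) := by
    intro k
    rcases Fin.eq_self_or_eq_succAbove i k with h | ⟨j, h⟩
    · rw [h, P_same, P_same]
      simp
    · rw [h, P_succ, P_succ, ← Real.dist_eq]
      exact dist_le_pi_dist v w j
  have h2 := Q_sub_ball _ dist_nonneg h1
  rw [mem_closedBall] at h2
  rw [edist_dist, edist_dist, ← ENNReal.ofReal_natCast, ← ENNReal.ofReal_mul (by positivity)]
  exact ENNReal.ofReal_le_ofReal h2

theorem face_est {m : ℕ} {q : ℝ} (hq : (m : ℝ) < q) {C : ℝ≥0}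
    (hC : ∀ (Z : Type) [MetricSpace Z] (a : Fin m → ℝ) (l : ℝ), 0 < l →
      ∀ (u : (Fin m → ℝ) → Z) (g : (Fin m → ℝ) → ℝ≥0∞),
      ContinuousOn u (Icc a (fun i => a i + l)) → Measurable g →
      (∀ x ∈ Icc a (fun i => a i + l), ∀ y ∈ Icc a (fun i => a i + l),
        edist (u x) (u y) ≤ edist x y * (g x + g y)) →
      ∀ x ∈ Icc a (fun i => a i + l), ∀ y ∈ Icc a (fun i => a i + l),
        edist (u x) (u y) ^ q ≤ C * ENNReal.ofReal (l ^ (q - m)) *
          ∫⁻ z in Icc a (fun i => a i + l), g z ^ q)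
    {u : E (m + 1) → E (m + 1)} {g : E (m + 1) → ℝ≥0∞} (hg : Measurable g) {a : E (m + 1)}
    {t : ℝ} (ht : 0 < t) (hQB : Q a t ⊆ BB (m + 1)) (huc : ContinuousOn u (BB (m + 1)))
    (hh : Haj (BB (m + 1)) u g) (i : Fin (m + 1)) {c : ℝ} (hci : |c - a i| ≤ t)
    {x y : E (m + 1)} (hx : x ∈ Q a t) (hy : y ∈ Q a t) (hxi : x i = c) (hyi : y i = c) :
    edist (u x) (u y) ^ q ≤ C * ENNReal.ofReal ((2 * t) ^ (q - m)) *
      (((m + 1 : ℕ) : ℝ≥0∞) ^ q *
        ∫⁻ v : Fin m → ℝ, (Q a t).indicator (fun z => g z ^ q) (P i c v)) := by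
  have hq0 : 0 ≤ q := le_trans (Nat.cast_nonneg m) hq.le
  set a' : Fin m → ℝ := fun j => a (i.succAbove j) - t with ha'
  have hmemI : ∀ v : Fin m → ℝ, v ∈ Icc a' (fun j => a' j + 2 * t) ↔
      ∀ j, |v j - a (i.succAbove j)| ≤ t := by
    intro v
    constructor
    · rintro ⟨h1, h2⟩ j
      have h1 := h1 j
      have h2 := h2 j
      simp only [ha'] at h1 h2
      rw [abs_le]
      constructor <;> linarith
    · intro hv
      constructor
      · intro j
        have := (abs_le.1 (hv j)).1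
        simp only [ha']
        linarith
      · intro j
        have := (abs_le.1 (hv j)).2
        simp only [ha']
        linarith
  have hPQ : ∀ v ∈ Icc a' (fun j => a' j + 2 * t), P i c v ∈ Q a t := by
    intro v hv k
    rcases Fin.eq_self_or_eq_succAbove i k with h | ⟨j, h⟩
    · rw [h, P_same]
      exact hci
    · rw [h, P_succ]
      exact (hmemI v).1 hv j
  have hcut : ∀ z ∈ Q a t, z i = c → ∃ v ∈ Icc a' (fun j => a' j + 2 * t), P i c v = z := by
    intro z hz hzi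
    refine ⟨fun j => z (i.succAbove j), (hmemI _).2 fun j => hz _, ?_⟩
    rw [← hzi]
    exact P_eta i z
  obtain ⟨v, hv, rfl⟩ := hcut x hx hxi
  obtain ⟨w, hw, rfl⟩ := hcut y hy hyi
  have hmeas : Measurable (fun v => g (P i c v)) := hg.comp (meas_P i c).measurable
  have key := hC (E (m + 1)) a' (2 * t) (by positivity) (fun v => u (P i c v))
    (fun v => ((m + 1 : ℕ) : ℝ≥0∞) * g (P i c v))
    (huc.comp (meas_P i c).continuousOn (fun v hv => hQB (hPQ v hv)))
    (hmeas.const_mul _) (by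
      intro v hv w hw
      refine (hh _ (hQB (hPQ v hv)) _ (hQB (hPQ w hw))).trans ?_
      calc edist (P i c v) (P i c w) * (g (P i c v) + g (P i c w))
          ≤ (((m + 1 : ℕ) : ℝ≥0∞) * edist v w) * (g (P i c v) + g (P i c w)) :=
            mul_le_mul_left (edist_P i c v w) _
        _ = _ := by ring) v hv w hw
  refine key.trans ?_
  apply mul_le_mul_right
  have h1 : ∀ v : Fin m → ℝ, (((m + 1 : ℕ) : ℝ≥0∞) * g (P i c v)) ^ q =
      ((m + 1 : ℕ) : ℝ≥0∞) ^ q * g (P i c v) ^ q := fun v => ENNReal.mul_rpow_of_nonneg _ _ hq0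
  simp only [h1]
  rw [lintegral_const_mul _ (hmeas.pow_const q)]
  apply mul_le_mul_right
  rw [← lintegral_indicator measurableSet_Icc]
  apply lintegral_mono
  intro v
  by_cases hv : v ∈ Icc a' (fun j => a' j + 2 * t)
  · simp only [indicator_of_mem hv, indicator_of_mem (hPQ v hv)]
    exact le_rfl
  · simp only [indicator_of_notMem hv]
    exact bot_le

theorem meas_slice {m : ℕ} (i : Fin (m + 1)) (G : E (m + 1) → ℝ≥0∞) (hG : Measurable G)
    (b s : ℝ) : Measurable (fun t : ℝ => ∫⁻ v : Fin m → ℝ, G (P i (b + s * t) v)) := by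
  have hP : Measurable (fun q : ℝ × (Fin m → ℝ) => P i q.1 q.2) := by
    have h1 := PiLp.volume_preserving_toLp (Fin (m + 1))
    have h2 := (volume_preserving_piFinSuccAbove (fun _ : Fin (m + 1) => ℝ) i).symm
    exact (h1.comp h2).measurable
  have h3 : Measurable (fun q : ℝ × (Fin m → ℝ) => G (P i (b + s * q.1) q.2)) := by
    have h4 : Measurable (fun q : ℝ × (Fin m → ℝ) => ((b + s * q.1, q.2) : ℝ × (Fin m → ℝ))) := by
      fun_prop
    exact hG.comp (hP.comp h4)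
  exact h3.lintegral_prod_right'

theorem t_FACE : S_MOR → S_FACE := by
  intro hM n hn q hq
  obtain ⟨m, rfl⟩ : ∃ m, n = m + 1 := ⟨n - 1, by omega⟩
  have hm : 1 ≤ m := by omega
  have hq' : (m : ℝ) < q := by push_cast at hq; linarith
  have hq0 : 0 ≤ q := le_trans (Nat.cast_nonneg m) hq'.le
  obtain ⟨C, hC⟩ := hM m hm q hq'
  set K : ℝ≥0∞ := 3 ^ q * (C * ENNReal.ofReal (4 ^ (q - m)) * ((m + 1 : ℕ) : ℝ≥0∞) ^ q) *
    (((m + 1 : ℕ) : ℝ≥0∞) * 2) with hKdef
  have hKt : K ≠ ∞ := by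
    have h1 : (3 : ℝ≥0∞) ^ q ≠ ∞ := ENNReal.rpow_ne_top_of_nonneg hq0 (by norm_num)
    have h2 : ((m + 1 : ℕ) : ℝ≥0∞) ^ q ≠ ∞ :=
      ENNReal.rpow_ne_top_of_nonneg hq0 (ENNReal.natCast_ne_top _)
    exact ENNReal.mul_ne_top (ENNReal.mul_ne_top h1 (ENNReal.mul_ne_top (ENNReal.mul_ne_top
      ENNReal.coe_ne_top ENNReal.ofReal_ne_top) h2)) (ENNReal.mul_ne_top
      (ENNReal.natCast_ne_top _) (by norm_num))
  refine ⟨K.toNNReal, ?_⟩
  rw [ENNReal.coe_toNNReal hKt]
  intro H _ _ T hT h g hg hh a ha r hr hrn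
  have ha3 : ‖a‖ ≤ 3 := by simpa using ha
  have hm1 : (0 : ℝ) < (m : ℝ) + 1 := by positivity
  have hrn' : ((m : ℝ) + 1) * r ≤ 1 / 8 := by
    push_cast at hrn
    rw [le_div_iff₀ (by positivity)] at hrn
    linarith
  set G : E (m + 1) → ℝ≥0∞ := (Q a (2 * r)).indicator (fun z => g z ^ q) with hG
  have hGm : Measurable G := (hg.pow_const q).indicator (isClosed_Q a (2 * r)).measurableSet
  set L : ℝ≥0∞ := ENNReal.ofReal (Metric.diam (T h '' closedBall a r)) ^ q with hL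
  set A : ℝ≥0∞ := 3 ^ q * (C * ENNReal.ofReal ((4 * r) ^ (q - m)) * ((m + 1 : ℕ) : ℝ≥0∞) ^ q)
    with hA
  -- one value of t
  have hone : ∀ t ∈ Icc r (2 * r), L ≤ A * ∑ i : Fin (m + 1),
      ((∫⁻ v : Fin m → ℝ, G (P i (a i + 1 * t) v)) +
        ∫⁻ v : Fin m → ℝ, G (P i (a i + (-1) * t) v)) := by
    intro t ht
    have ht0 : 0 < t := lt_of_lt_of_le hr ht.1
    have hQ1 : Q a t ⊆ closedBall 0 (13 / 4) := by
      intro z hz
      have h1 := Q_sub_ball a ht0.le hz
      rw [mem_closedBall, dist_eq_norm] at h1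
      push_cast at h1
      have h2 : ((m : ℝ) + 1) * t ≤ 1 / 4 := by
        have := mul_le_mul_of_nonneg_left ht.2 hm1.le
        linarith
      rw [mem_closedBall, dist_zero_right]
      calc ‖z‖ = ‖a + (z - a)‖ := by congr 1; abel
        _ ≤ ‖a‖ + ‖z - a‖ := norm_add_le _ _
        _ ≤ _ := by linarith
    have hQB : Q a t ⊆ BB (m + 1) := fun z hz => mem_BB.2 (by
      have : ‖z‖ ≤ 13 / 4 := by simpa using hQ1 hz
      linarith)
    obtain ⟨i, s, x, y, hs, hx, hy, hxi, hyi, hall⟩ := faces hm hT h ht0.le hQ1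
    have hd : Metric.diam (T h '' closedBall a r) ≤ 3 * dist (T h x) (T h y) := by
      apply Metric.diam_le_of_forall_dist_le (by positivity)
      rintro _ ⟨z, hz, rfl⟩ _ ⟨z', hz', rfl⟩
      exact hall z (ball_sub_Q a ht.1 hz) z' (ball_sub_Q a ht.1 hz')
    have h1 : L ≤ 3 ^ q * edist (T h x) (T h y) ^ q := by
      rw [← ENNReal.mul_rpow_of_nonneg _ _ hq0]
      apply ENNReal.rpow_le_rpow _ hq0
      rw [edist_dist]
      have h3 : (3 : ℝ≥0∞) = ENNReal.ofReal 3 := by simp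
      rw [h3, ← ENNReal.ofReal_mul (by norm_num)]
      exact ENNReal.ofReal_le_ofReal hd
    have hci : |a i + s * t - a i| ≤ t := by
      rw [add_sub_cancel_left, abs_mul, hs, one_mul, abs_of_pos ht0]
    have h2 := face_est hq' hC hg ht0 hQB (hT.cont_right h) hh i hci hx hy hxi hyi
    have h3 : (∫⁻ v : Fin m → ℝ, (Q a t).indicator (fun z => g z ^ q) (P i (a i + s * t) v)) ≤
        ∫⁻ v : Fin m → ℝ, G (P i (a i + s * t) v) := by
      apply lintegral_mono
      intro v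
      exact indicator_le_indicator_of_subset (Q_mono a ht.2) (fun _ => bot_le) _
    have h4 : (∫⁻ v : Fin m → ℝ, G (P i (a i + s * t) v)) ≤ ∑ i : Fin (m + 1),
      ((∫⁻ v : Fin m → ℝ, G (P i (a i + 1 * t) v)) +
        ∫⁻ v : Fin m → ℝ, G (P i (a i + (-1) * t) v)) := by
      refine le_trans ?_ (Finset.single_le_sum (f := fun i : Fin (m + 1) =>
        ((∫⁻ v : Fin m → ℝ, G (P i (a i + 1 * t) v)) +
        ∫⁻ v : Fin m → ℝ, G (P i (a i + (-1) * t) v))) (fun _ _ => bot_le) (Finset.mem_univ i))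
      rcases (abs_eq (zero_le_one' ℝ)).1 hs with h | h
      · rw [h]
        exact le_self_add
      · rw [h]
        exact le_add_self
    have h5 : ENNReal.ofReal ((2 * t) ^ (q - m)) ≤ ENNReal.ofReal ((4 * r) ^ (q - m)) := by
      apply ENNReal.ofReal_le_ofReal
      apply Real.rpow_le_rpow (by positivity) (by linarith [ht.2]) (by linarith)
    calc L ≤ 3 ^ q * edist (T h x) (T h y) ^ q := h1
      _ ≤ 3 ^ q * (C * ENNReal.ofReal ((4 * r) ^ (q - m)) *
          (((m + 1 : ℕ) : ℝ≥0∞) ^ q * ∑ i : Fin (m + 1),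
      ((∫⁻ v : Fin m → ℝ, G (P i (a i + 1 * t) v)) +
        ∫⁻ v : Fin m → ℝ, G (P i (a i + (-1) * t) v)))) := by
          apply mul_le_mul_right
          refine h2.trans ?_
          exact mul_le_mul' (mul_le_mul_right h5 _) (mul_le_mul_right (h3.trans h4) _)
      _ = _ := by rw [hA]; ring
  -- integrate
  have hAt : A ≠ ∞ := by
    have h1 : (3 : ℝ≥0∞) ^ q ≠ ∞ := ENNReal.rpow_ne_top_of_nonneg hq0 (by norm_num)
    have h2 : ((m + 1 : ℕ) : ℝ≥0∞) ^ q ≠ ∞ :=
      ENNReal.rpow_ne_top_of_nonneg hq0 (ENNReal.natCast_ne_top _)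
    exact ENNReal.mul_ne_top h1 (ENNReal.mul_ne_top (ENNReal.mul_ne_top
      ENNReal.coe_ne_top ENNReal.ofReal_ne_top) h2)
  have hint : L * ENNReal.ofReal r ≤ A * (((m + 1 : ℕ) : ℝ≥0∞) * (2 * ∫⁻ z, G z)) := by
    calc L * ENNReal.ofReal r = ∫⁻ _t in Icc r (2 * r), L := by
          rw [setLIntegral_const, Real.volume_Icc]
          congr 2
          ring
      _ ≤ ∫⁻ t in Icc r (2 * r), A * ∑ i : Fin (m + 1),
      ((∫⁻ v : Fin m → ℝ, G (P i (a i + 1 * t) v)) +
        ∫⁻ v : Fin m → ℝ, G (P i (a i + (-1) * t) v)) :=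
          setLIntegral_mono' measurableSet_Icc hone
      _ ≤ ∫⁻ t : ℝ, A * ∑ i : Fin (m + 1),
      ((∫⁻ v : Fin m → ℝ, G (P i (a i + 1 * t) v)) +
        ∫⁻ v : Fin m → ℝ, G (P i (a i + (-1) * t) v)) := setLIntegral_le_lintegral _ _
      _ = A * ∑ i : Fin (m + 1), ((∫⁻ t : ℝ, ∫⁻ v : Fin m → ℝ, G (P i (a i + 1 * t) v)) +
        ∫⁻ t : ℝ, ∫⁻ v : Fin m → ℝ, G (P i (a i + (-1) * t) v)) := by
          rw [lintegral_const_mul' _ _ hAt, lintegral_finsetSum]
          · congr 1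
            apply Finset.sum_congr rfl
            intro i _
            exact lintegral_add_left (meas_slice i G hGm (a i) 1) _
          · intro i _
            exact (meas_slice i G hGm (a i) 1).add (meas_slice i G hGm (a i) (-1))
      _ = A * (((m + 1 : ℕ) : ℝ≥0∞) * (2 * ∫⁻ z, G z)) := by
          congr 1
          have : ∀ i : Fin (m + 1), ((∫⁻ t : ℝ, ∫⁻ v : Fin m → ℝ, G (P i (a i + 1 * t) v)) +
              ∫⁻ t : ℝ, ∫⁻ v : Fin m → ℝ, G (P i (a i + (-1) * t) v)) = 2 * ∫⁻ z, G z := by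
            intro i
            rw [lint_face i G hGm (a i) 1 (by simp), lint_face i G hGm (a i) (-1) (by simp),
              two_mul]
          simp only [this]
          rw [Finset.sum_const, Finset.card_univ, Fintype.card_fin, nsmul_eq_mul]
  have hGI : ∫⁻ z, G z ≤ ∫⁻ z in closedBall a (2 * ((m + 1 : ℕ) : ℝ) * r), g z ^ q := by
    rw [hG, lintegral_indicator (isClosed_Q a (2 * r)).measurableSet]
    apply lintegral_mono_set
    refine (Q_sub_ball a (by positivity)).trans (closedBall_subset_closedBall (le_of_eq ?_))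
    ring
  have hpow : ENNReal.ofReal ((4 * r) ^ (q - m)) = ENNReal.ofReal (4 ^ (q - m)) *
      ENNReal.ofReal (r ^ (q - ((m + 1 : ℕ) : ℝ))) * ENNReal.ofReal r := by
    rw [← ENNReal.ofReal_mul (by positivity), ← ENNReal.ofReal_mul (by positivity)]
    congr 1
    rw [Real.mul_rpow (by norm_num) hr.le, mul_assoc]
    congr 1
    have : q - m = (q - ((m + 1 : ℕ) : ℝ)) + 1 := by push_cast; ring
    rw [this, Real.rpow_add hr, Real.rpow_one]
  have hfin : L * ENNReal.ofReal r ≤ (K * ENNReal.ofReal (r ^ (q - ((m + 1 : ℕ) : ℝ))) *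
      ∫⁻ z in closedBall a (2 * ((m + 1 : ℕ) : ℝ) * r), g z ^ q) * ENNReal.ofReal r := by
    refine hint.trans ?_
    calc A * (((m + 1 : ℕ) : ℝ≥0∞) * (2 * ∫⁻ z, G z))
        ≤ A * (((m + 1 : ℕ) : ℝ≥0∞) *
          (2 * ∫⁻ z in closedBall a (2 * ((m + 1 : ℕ) : ℝ) * r), g z ^ q)) :=
          mul_le_mul_right (mul_le_mul_right (mul_le_mul_right hGI _) _) _
      _ = _ := by rw [hA, hKdef, hpow]; ring
  have hr0 : ENNReal.ofReal r ≠ 0 := by simpa using hr
  exact (ENNReal.mul_le_mul_iff_left hr0 ENNReal.ofReal_ne_top).1 hfin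

end Pool.Agent.Y566.SP
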