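import Pool.Agent.Y489.SP.Stm
import Pool.Agent.Y485.HS.Loc

/-!
Project SP (helper489), job SP-FACE, part 1: the largest distance between two image points of a cube
is at most three times a distance between image points of one face.
-/

set_option autoImplicit false

open MeasureTheory Set Metric Filter Topology
open scoped ENNReal NNReal

noncomputable section

namespace Pool.Agent.Y566.SP

open Pool.Agent.Y485.HS

/-- the cube -/
def Q {n : ℕ} (a : E n) (t : ℝ) : Set (E n) := {x | ∀ i, |x i - a i| ≤ t}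

theorem isClosed_Q {n : ℕ} (a : E n) (t : ℝ) : IsClosed (Q a t) := by
  have : Q a t = ⋂ i, {x : E n | |x i - a i| ≤ t} := by ext x; simp [Q]
  rw [this]
  exact isClosed_iInter fun i => isClosed_le (by fun_prop) continuous_const

theorem ball_sub_Q {n : ℕ} (a : E n) {r t : ℝ} (h : r ≤ t) : closedBall a r ⊆ Q a t := by
  intro x hx i
  have h1 : ‖(x - a) i‖ ≤ ‖x - a‖ := PiLp.norm_apply_le (x - a) i
  rw [mem_closedBall, dist_eq_norm] at hx
  have h2 : (x - a) i = x i - a i := by simp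
  rw [h2, Real.norm_eq_abs] at h1
  linarith

theorem Q_sub_ball {n : ℕ} (a : E n) {t : ℝ} (ht : 0 ≤ t) : Q a t ⊆ closedBall a (n * t) := by
  intro x hx
  rw [mem_closedBall, dist_eq_norm, EuclideanSpace.norm_eq]
  apply Real.sqrt_le_iff.2
  refine ⟨by positivity, ?_⟩
  have h1 : ∑ i, ‖(x - a) i‖ ^ 2 ≤ ∑ _i : Fin n, t ^ 2 := by
    apply Finset.sum_le_sum
    intro i _
    have h2 : (x - a) i = x i - a i := by simp
    rw [h2, Real.norm_eq_abs]
    have := hx i
    have h0 := abs_nonneg (x i - a i)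
    nlinarith
  refine h1.trans ?_
  simp only [Finset.sum_const, Finset.card_univ, Fintype.card_fin, nsmul_eq_mul]
  rw [mul_pow]
  apply mul_le_mul_of_nonneg_right _ (by positivity)
  rcases Nat.eq_zero_or_pos n with h | h
  · simp [h]
  · have : (1 : ℝ) ≤ n := by exact_mod_cast h
    nlinarith

theorem Q_mono {n : ℕ} (a : E n) {s t : ℝ} (h : s ≤ t) : Q a s ⊆ Q a t :=
  fun _ hx i => (hx i).trans h

theorem isCompact_Q {n : ℕ} (a : E n) {t : ℝ} (ht : 0 ≤ t) : IsCompact (Q a t) :=
  (isCompact_closedBall a (n * t)).of_isClosed_subset (isClosed_Q a t) (Q_sub_ball a ht)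

theorem far {n : ℕ} {H : Type} [Group H] [TopologicalSpace H] {T : H → E n → E n}
    (hT : LocAct n H T) (h : H) {a : E n} {t : ℝ} (hQ : Q a t ⊆ closedBall 0 (13 / 4))
    {x x' : E n} (hx : x ∈ Q a t)
    (hmax : ∀ z ∈ Q a t, dist (T h z) (T h x') ≤ dist (T h x) (T h x'))
    (hne : T h x ≠ T h x') : ∃ i, |x i - a i| = t := by
  by_contra hcon
  push Not at hcon
  have hlt : ∀ i, |x i - a i| < t := fun i => lt_of_le_of_ne (hx i) (hcon i)
  have hopen : IsOpen {z : E n | ∀ i, |z i - a i| < t} := by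
    have : {z : E n | ∀ i, |z i - a i| < t} = ⋂ i, {z : E n | |z i - a i| < t} := by
      ext; simp
    rw [this]
    exact isOpen_iInter_of_finite fun i => isOpen_lt (by fun_prop) continuous_const
  have hnx : ‖x‖ ≤ 13 / 4 := by simpa using hQ hx
  have hxB : x ∈ BB n := mem_BB.2 (by linarith)
  have hux : ‖T h x‖ ≤ 7 / 2 := by
    have := norm_T_le hT h hxB
    linarith
  have huB : BB n ∈ 𝓝 (T h x) := by
    refine mem_of_superset (ball_mem_nhds (T h x) (ε := 1 / 2) (by norm_num)) ?_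
    intro w hw
    rw [mem_ball, dist_eq_norm] at hw
    rw [mem_BB]
    have h1 : ‖w‖ ≤ ‖T h x‖ + ‖w - T h x‖ := by
      calc ‖w‖ = ‖T h x + (w - T h x)‖ := by congr 1; abel
        _ ≤ _ := norm_add_le _ _
    linarith
  have hc : ContinuousAt (T h⁻¹) (T h x) := (hT.cont_right h⁻¹).continuousAt huB
  have hinv : T h⁻¹ (T h x) = x := hT.inv h hxB (mem_BB.2 (by linarith))
  have hev : ∀ᶠ w in 𝓝 (T h x), T h⁻¹ w ∈ {z : E n | ∀ i, |z i - a i| < t} := by
    apply hc
    rw [hinv]
    exact hopen.mem_nhds hlt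
  have hray : Tendsto (fun s : ℝ => T h x + s • (T h x - T h x')) (𝓝[>] 0) (𝓝 (T h x)) := by
    have h1 : Continuous (fun s : ℝ => T h x + s • (T h x - T h x')) := by fun_prop
    have h2 := h1.tendsto 0
    simp only [zero_smul, add_zero] at h2
    exact h2.mono_left nhdsWithin_le_nhds
  have hev2 : ∀ᶠ s in 𝓝[>] (0 : ℝ), 0 < s := self_mem_nhdsWithin
  obtain ⟨s, ⟨hs1, hs2⟩, hs0⟩ := (((hray.eventually (hev.and huB)).and hev2)).exists
  have hzQ : T h⁻¹ (T h x + s • (T h x - T h x')) ∈ Q a t := fun i => (hs1 i).le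
  have hzn : ‖T h⁻¹ (T h x + s • (T h x - T h x'))‖ ≤ 13 / 4 := by simpa using hQ hzQ
  have huw : T h (T h⁻¹ (T h x + s • (T h x - T h x'))) = T h x + s • (T h x - T h x') := by
    have := hT.inv h⁻¹ hs2 (mem_BB.2 (by linarith))
    simpa using this
  have hle := hmax _ hzQ
  rw [huw] at hle
  have h3 : dist (T h x + s • (T h x - T h x')) (T h x') = (1 + s) * dist (T h x) (T h x') := by
    rw [dist_eq_norm, dist_eq_norm]
    have : T h x + s • (T h x - T h x') - T h x' = (1 + s) • (T h x - T h x') := by module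
    rw [this, norm_smul, Real.norm_eq_abs, abs_of_pos (by linarith)]
  rw [h3] at hle
  have := dist_pos.2 hne
  nlinarith

/-- a point on two faces -/
theorem meet {n : ℕ} (a : E n) {t : ℝ} (ht : 0 ≤ t) {i j : Fin n} (hij : i ≠ j) {s s' : ℝ}
    (hs : |s| = 1) (hs' : |s'| = 1) :
    ∃ z ∈ Q a t, z i = a i + s * t ∧ z j = a j + s' * t := by
  refine ⟨WithLp.toLp 2 (fun k => if k = i then a i + s * t else
    if k = j then a j + s' * t else a k), ?_, ?_, ?_⟩
  · intro k
    show |(if k = i then a i + s * t else if k = j then a j + s' * t else a k) - a k| ≤ t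
    split_ifs with h1 h2
    · subst h1
      rw [add_sub_cancel_left, abs_mul, hs, one_mul, abs_of_nonneg ht]
    · subst h2
      rw [add_sub_cancel_left, abs_mul, hs', one_mul, abs_of_nonneg ht]
    · simpa using ht
  · show (if i = i then a i + s * t else if i = j then a j + s' * t else a i) = _
    simp
  · show (if j = i then a i + s * t else if j = j then a j + s' * t else a j) = _
    rw [if_neg hij.symm, if_pos rfl]

theorem exists_far {X Y : Type} [TopologicalSpace X] [PseudoMetricSpace Y] {K : Set X}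
    (hK : IsCompact K) (hne : K.Nonempty) {f : X → Y} (hf : ContinuousOn f K) :
    ∃ x ∈ K, ∃ x' ∈ K, ∀ z ∈ K, ∀ z' ∈ K, dist (f z) (f z') ≤ dist (f x) (f x') := by
  have hc2 : ContinuousOn (fun q : X × X => dist (f q.1) (f q.2)) (K ×ˢ K) :=
    continuous_dist.comp_continuousOn ((hf.comp continuousOn_fst (fun q hq => hq.1)).prodMk
      (hf.comp continuousOn_snd (fun q hq => hq.2)))
  obtain ⟨q, hq, hmax⟩ := (hK.prod hK).exists_isMaxOn (hne.prod hne) hc2
  exact ⟨q.1, hq.1, q.2, hq.2, fun z hz z' hz' => isMaxOn_iff.1 hmax (z, z') ⟨hz, hz'⟩⟩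

theorem faces {m : ℕ} (hm : 1 ≤ m) {H : Type} [Group H] [TopologicalSpace H]
    {T : H → E (m + 1) → E (m + 1)} (hT : LocAct (m + 1) H T) (h : H) {a : E (m + 1)} {t : ℝ}
    (ht : 0 ≤ t) (hQ : Q a t ⊆ closedBall 0 (13 / 4)) :
    ∃ (i : Fin (m + 1)) (s : ℝ) (x y : E (m + 1)), |s| = 1 ∧ x ∈ Q a t ∧ y ∈ Q a t ∧
      x i = a i + s * t ∧ y i = a i + s * t ∧
      ∀ z ∈ Q a t, ∀ z' ∈ Q a t, dist (T h z) (T h z') ≤ 3 * dist (T h x) (T h y) := by
  have hcont : ContinuousOn (T h) (Q a t) :=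
    (hT.cont_right h).mono (hQ.trans (fun x hx => mem_BB.2 (by
      have : ‖x‖ ≤ 13 / 4 := by simpa using hx
      linarith)))
  have hcomp := isCompact_Q a ht
  have hane : a ∈ Q a t := fun i => by simpa using ht
  obtain ⟨x, hx, x', hx', hmax'⟩ := exists_far hcomp ⟨a, hane⟩ hcont
  have hnt : Nontrivial (Fin (m + 1)) := Fin.nontrivial_iff_two_le.2 (by omega)
  by_cases hne : T h x = T h x'
  · obtain ⟨i0, j0, h01⟩ := exists_pair_ne (Fin (m + 1))
    obtain ⟨z, hz, hz0, -⟩ := meet a ht h01 (s := 1) (s' := 1) (by simp) (by simp)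
    refine ⟨i0, 1, z, z, by simp, hz, hz, hz0, hz0, ?_⟩
    intro w hw w' hw'
    have := hmax' w hw w' hw'
    rw [hne, dist_self] at this
    simpa using this
  -- both points lie on the boundary
  obtain ⟨i, hi⟩ := far hT h hQ hx (fun z hz => hmax' z hz x' hx') hne
  obtain ⟨j, hj⟩ := far hT h hQ (x := x') (x' := x) hx'
    (fun z hz => by rw [dist_comm (T h x') (T h x)]; exact hmax' z hz x hx) (Ne.symm hne)
  have hsg : ∀ (y : E (m + 1)) (k : Fin (m + 1)), |y k - a k| = t → ∃ s : ℝ, |s| = 1 ∧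
      y k = a k + s * t := by
    intro y k hk
    rcases le_total 0 (y k - a k) with h0 | h0
    · refine ⟨1, by simp, ?_⟩
      rw [abs_of_nonneg h0] at hk
      linarith
    · refine ⟨-1, by simp, ?_⟩
      rw [abs_of_nonpos h0] at hk
      linarith
  obtain ⟨s, hs, hxi⟩ := hsg x i hi
  obtain ⟨s', hs', hxj⟩ := hsg x' j hj
  by_cases hij : i = j
  · subst hij
    obtain ⟨k, hk⟩ : ∃ k : Fin (m + 1), k ≠ i := exists_ne i
    obtain ⟨z, hz, hzi, hzk⟩ := meet a ht hk.symm hs (s' := 1) (by simp)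
    obtain ⟨z', hz', hzi', hzk'⟩ := meet a ht hk.symm hs' (s' := 1) (by simp)
    have htri : dist (T h x) (T h x') ≤ dist (T h x) (T h z) + dist (T h z) (T h z') +
        dist (T h z') (T h x') := dist_triangle4 _ _ _ _
    rcases le_total (dist (T h x) (T h x')) (3 * dist (T h x) (T h z)) with h1 | h1
    · exact ⟨i, s, x, z, hs, hx, hz, hxi, hzi, fun w hw w' hw' => (hmax' w hw w' hw').trans h1⟩
    rcases le_total (dist (T h x) (T h x')) (3 * dist (T h z) (T h z')) with h2 | h2
    · exact ⟨k, 1, z, z', by simp, hz, hz', hzk, hzk',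
        fun w hw w' hw' => (hmax' w hw w' hw').trans h2⟩
    · exact ⟨i, s', z', x', hs', hz', hx', hzi', hxj,
        fun w hw w' hw' => (hmax' w hw w' hw').trans (by linarith)⟩
  · obtain ⟨z, hz, hzi, hzj⟩ := meet a ht hij hs hs'
    have htri : dist (T h x) (T h x') ≤ dist (T h x) (T h z) + dist (T h z) (T h x') :=
      dist_triangle _ _ _
    have hnn := dist_nonneg (x := T h x) (y := T h x')
    rcases le_total (dist (T h x) (T h x')) (3 * dist (T h x) (T h z)) with h1 | h1
    · exact ⟨i, s, x, z, hs, hx, hz, hxi, hzi, fun w hw w' hw' => (hmax' w hw w' hw').trans h1⟩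
    · exact ⟨j, s', z, x', hs', hz, hx', hzj, hxj,
        fun w hw w' hw' => (hmax' w hw w' hw').trans (by linarith)⟩

end Pool.Agent.Y566.SP
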